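import Pool.Agent.U820.LT.F54.Cert
import Pool.Agent.U820.LT.TrD
import Pool.Agent.U729.LT.D54.Dat

/-!
# The certified sphere with 54430 facets and the data
-/

set_option autoImplicit false

noncomputable section

namespace Pool.Agent.U820.LT.F54

open Pool.Agent.U820.LT Pool.Agent.U729.LT Pool.Agent.U729.LT.D54

/-- the facets -/
def fs : List ℕ := fsM 512 54432 u12 t12.get

theorem fs_lt : ∀ f ∈ fs, f < 2 ^ 512 := fsM_lt

theorem fs_sp : ∀ M, 512 + 2 ≤ M → Sp (2 * 3 + 1) (cx M fs) := sp_fsM cert u_lt

theorem lifts : lftsM u12 t12.get js (zs.map Prod.fst) = true := by decide +kernel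

theorem dat : Data 3 512 19 3 fs zs js U c := dataM (by norm_num) u_lt lifts

end Pool.Agent.U820.LT.F54
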