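import Pool.Agent.U820.LT.F54.T1
import Pool.Agent.U820.LT.F54.T2
import Pool.Agent.U820.LT.F54.T3
import Pool.Agent.U820.LT.F54.T4
import Pool.Agent.U820.LT.F54.T5
import Pool.Agent.U820.LT.F54.T6
import Pool.Agent.U820.LT.F54.T7
import Pool.Agent.U820.LT.F54.T8
import Pool.Agent.U820.LT.F54.T9
import Pool.Agent.U820.LT.F54.T10
import Pool.Agent.U820.LT.F54.T11
import Pool.Agent.U820.LT.F54.T12
import Pool.Agent.U820.LT.TrC

/-!
# The flip certificate (generated)
-/

set_option autoImplicit false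
set_option maxRecDepth 100000

noncomputable section

namespace Pool.Agent.U820.LT.F54

open Pool.Agent.U820.LT Pool.Agent.U729.LT

theorem b1 : t0.fb 9 = true := by decide +kernel

theorem b2 : bs u0 t0 512 = true := by decide +kernel

theorem b3 : Nat.blt u0 (2 ^ 512) = true := by decide +kernel

theorem b4 : Nat.beq (pc 512 u0) 8 = true := by decide +kernel

theorem c0 : InvT u0 t0 := inv_base b1 b2 b3 b4

theorem c1 : InvT u1 t1 := c0.seg g1

theorem c2 : InvT u2 t2 := c1.seg g2

theorem c3 : InvT u3 t3 := c2.seg g3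

theorem c4 : InvT u4 t4 := c3.seg g4

theorem c5 : InvT u5 t5 := c4.seg g5

theorem c6 : InvT u6 t6 := c5.seg g6

theorem c7 : InvT u7 t7 := c6.seg g7

theorem c8 : InvT u8 t8 := c7.seg g8

theorem c9 : InvT u9 t9 := c8.seg g9

theorem c10 : InvT u10 t10 := c9.seg g10

theorem c11 : InvT u11 t11 := c10.seg g11

theorem c12 : InvT u12 t12 := c11.seg g12

theorem cert : InvT u12 t12 := c12

theorem u_lt : u12 < 2 ^ 54432 := by
  have h : Nat.blt u12 (2 ^ 54432) = true := by decide +kernel
  rwa [Nat.blt_eq] at h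

end Pool.Agent.U820.LT.F54
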