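import Pool.Agent.U820.LT.TrB

/-!
# State 0 of the flip certificate (generated)
-/

set_option autoImplicit false
set_option maxRecDepth 100000

noncomputable section

namespace Pool.Agent.U820.LT.F54

open Pool.Agent.U820.LT

/-- mask -/
def s0m0 : ℕ := 0x0
/-- mask -/
def s0m1 : ℕ := 0x0
/-- mask -/
def s0m2 : ℕ := 0x0
/-- mask -/
def s0m3 : ℕ := 0x0
/-- mask -/
def s0m4 : ℕ := 0x0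
/-- mask -/
def s0m5 : ℕ := 0x0
/-- mask -/
def s0m6 : ℕ := 0x0
/-- mask -/
def s0m7 : ℕ := 0x0
/-- mask -/
def s0m8 : ℕ := 0x0
/-- mask -/
def s0m9 : ℕ := 0x0
/-- mask -/
def s0m10 : ℕ := 0x0
/-- mask -/
def s0m11 : ℕ := 0x0
/-- mask -/
def s0m12 : ℕ := 0x0
/-- mask -/
def s0m13 : ℕ := 0x0
/-- mask -/
def s0m14 : ℕ := 0x0
/-- mask -/
def s0m15 : ℕ := 0x0
/-- mask -/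
def s0m16 : ℕ := 0x0
/-- mask -/
def s0m17 : ℕ := 0x0
/-- mask -/
def s0m18 : ℕ := 0x0
/-- mask -/
def s0m19 : ℕ := 0x0
/-- mask -/
def s0m20 : ℕ := 0x0
/-- mask -/
def s0m21 : ℕ := 0x0
/-- mask -/
def s0m22 : ℕ := 0x180200000000000000000000000000088004800000
/-- mask -/
def s0m23 : ℕ := 0x180200000000000000000000000000088004400000
/-- mask -/
def s0m24 : ℕ := 0x0
/-- mask -/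
def s0m25 : ℕ := 0x0
/-- mask -/
def s0m26 : ℕ := 0x180200000000000000000000000000088000c00000
/-- mask -/
def s0m27 : ℕ := 0x0
/-- mask -/
def s0m28 : ℕ := 0x0
/-- mask -/
def s0m29 : ℕ := 0x0
/-- mask -/
def s0m30 : ℕ := 0x0
/-- mask -/
def s0m31 : ℕ := 0x0
/-- mask -/
def s0m32 : ℕ := 0x0
/-- mask -/
def s0m33 : ℕ := 0x0
/-- mask -/
def s0m34 : ℕ := 0x0
/-- mask -/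
def s0m35 : ℕ := 0x0
/-- mask -/
def s0m36 : ℕ := 0x0
/-- mask -/
def s0m37 : ℕ := 0x0
/-- mask -/
def s0m38 : ℕ := 0x0
/-- mask -/
def s0m39 : ℕ := 0x180200000000000000000000000000080004c00000
/-- mask -/
def s0m40 : ℕ := 0x0
/-- mask -/
def s0m41 : ℕ := 0x0
/-- mask -/
def s0m42 : ℕ := 0x0
/-- mask -/
def s0m43 : ℕ := 0x180200000000000000000000000000008004c00000
/-- mask -/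
def s0m44 : ℕ := 0x0
/-- mask -/
def s0m45 : ℕ := 0x0
/-- mask -/
def s0m46 : ℕ := 0x0
/-- mask -/
def s0m47 : ℕ := 0x0
/-- mask -/
def s0m48 : ℕ := 0x0
/-- mask -/
def s0m49 : ℕ := 0x0
/-- mask -/
def s0m50 : ℕ := 0x0
/-- mask -/
def s0m51 : ℕ := 0x0
/-- mask -/
def s0m52 : ℕ := 0x0
/-- mask -/
def s0m53 : ℕ := 0x0
/-- mask -/
def s0m54 : ℕ := 0x0
/-- mask -/
def s0m55 : ℕ := 0x0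
/-- mask -/
def s0m56 : ℕ := 0x0
/-- mask -/
def s0m57 : ℕ := 0x0
/-- mask -/
def s0m58 : ℕ := 0x0
/-- mask -/
def s0m59 : ℕ := 0x0
/-- mask -/
def s0m60 : ℕ := 0x0
/-- mask -/
def s0m61 : ℕ := 0x0
/-- mask -/
def s0m62 : ℕ := 0x0
/-- mask -/
def s0m63 : ℕ := 0x0
/-- mask -/
def s0m64 : ℕ := 0x0
/-- mask -/
def s0m65 : ℕ := 0x0
/-- mask -/
def s0m66 : ℕ := 0x0
/-- mask -/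
def s0m67 : ℕ := 0x0
/-- mask -/
def s0m68 : ℕ := 0x0
/-- mask -/
def s0m69 : ℕ := 0x0
/-- mask -/
def s0m70 : ℕ := 0x0
/-- mask -/
def s0m71 : ℕ := 0x0
/-- mask -/
def s0m72 : ℕ := 0x0
/-- mask -/
def s0m73 : ℕ := 0x0
/-- mask -/
def s0m74 : ℕ := 0x0
/-- mask -/
def s0m75 : ℕ := 0x0
/-- mask -/
def s0m76 : ℕ := 0x0
/-- mask -/
def s0m77 : ℕ := 0x0
/-- mask -/
def s0m78 : ℕ := 0x0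
/-- mask -/
def s0m79 : ℕ := 0x0
/-- mask -/
def s0m80 : ℕ := 0x0
/-- mask -/
def s0m81 : ℕ := 0x0
/-- mask -/
def s0m82 : ℕ := 0x0
/-- mask -/
def s0m83 : ℕ := 0x0
/-- mask -/
def s0m84 : ℕ := 0x0
/-- mask -/
def s0m85 : ℕ := 0x0
/-- mask -/
def s0m86 : ℕ := 0x0
/-- mask -/
def s0m87 : ℕ := 0x0
/-- mask -/
def s0m88 : ℕ := 0x0
/-- mask -/
def s0m89 : ℕ := 0x0
/-- mask -/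
def s0m90 : ℕ := 0x0
/-- mask -/
def s0m91 : ℕ := 0x0
/-- mask -/
def s0m92 : ℕ := 0x0
/-- mask -/
def s0m93 : ℕ := 0x0
/-- mask -/
def s0m94 : ℕ := 0x0
/-- mask -/
def s0m95 : ℕ := 0x0
/-- mask -/
def s0m96 : ℕ := 0x0
/-- mask -/
def s0m97 : ℕ := 0x0
/-- mask -/
def s0m98 : ℕ := 0x0
/-- mask -/
def s0m99 : ℕ := 0x0
/-- mask -/
def s0m100 : ℕ := 0x0
/-- mask -/
def s0m101 : ℕ := 0x0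
/-- mask -/
def s0m102 : ℕ := 0x0
/-- mask -/
def s0m103 : ℕ := 0x0
/-- mask -/
def s0m104 : ℕ := 0x0
/-- mask -/
def s0m105 : ℕ := 0x0
/-- mask -/
def s0m106 : ℕ := 0x0
/-- mask -/
def s0m107 : ℕ := 0x0
/-- mask -/
def s0m108 : ℕ := 0x0
/-- mask -/
def s0m109 : ℕ := 0x0
/-- mask -/
def s0m110 : ℕ := 0x0
/-- mask -/
def s0m111 : ℕ := 0x0
/-- mask -/
def s0m112 : ℕ := 0x0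
/-- mask -/
def s0m113 : ℕ := 0x0
/-- mask -/
def s0m114 : ℕ := 0x0
/-- mask -/
def s0m115 : ℕ := 0x0
/-- mask -/
def s0m116 : ℕ := 0x0
/-- mask -/
def s0m117 : ℕ := 0x0
/-- mask -/
def s0m118 : ℕ := 0x0
/-- mask -/
def s0m119 : ℕ := 0x0
/-- mask -/
def s0m120 : ℕ := 0x0
/-- mask -/
def s0m121 : ℕ := 0x0
/-- mask -/
def s0m122 : ℕ := 0x0
/-- mask -/
def s0m123 : ℕ := 0x0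
/-- mask -/
def s0m124 : ℕ := 0x0
/-- mask -/
def s0m125 : ℕ := 0x0
/-- mask -/
def s0m126 : ℕ := 0x0
/-- mask -/
def s0m127 : ℕ := 0x0
/-- mask -/
def s0m128 : ℕ := 0x0
/-- mask -/
def s0m129 : ℕ := 0x0
/-- mask -/
def s0m130 : ℕ := 0x0
/-- mask -/
def s0m131 : ℕ := 0x0
/-- mask -/
def s0m132 : ℕ := 0x0
/-- mask -/
def s0m133 : ℕ := 0x0
/-- mask -/
def s0m134 : ℕ := 0x0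
/-- mask -/
def s0m135 : ℕ := 0x0
/-- mask -/
def s0m136 : ℕ := 0x0
/-- mask -/
def s0m137 : ℕ := 0x0
/-- mask -/
def s0m138 : ℕ := 0x0
/-- mask -/
def s0m139 : ℕ := 0x0
/-- mask -/
def s0m140 : ℕ := 0x0
/-- mask -/
def s0m141 : ℕ := 0x0
/-- mask -/
def s0m142 : ℕ := 0x0
/-- mask -/
def s0m143 : ℕ := 0x0
/-- mask -/
def s0m144 : ℕ := 0x0
/-- mask -/
def s0m145 : ℕ := 0x0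
/-- mask -/
def s0m146 : ℕ := 0x0
/-- mask -/
def s0m147 : ℕ := 0x0
/-- mask -/
def s0m148 : ℕ := 0x0
/-- mask -/
def s0m149 : ℕ := 0x0
/-- mask -/
def s0m150 : ℕ := 0x0
/-- mask -/
def s0m151 : ℕ := 0x0
/-- mask -/
def s0m152 : ℕ := 0x0
/-- mask -/
def s0m153 : ℕ := 0x180000000000000000000000000000088004c00000
/-- mask -/
def s0m154 : ℕ := 0x0
/-- mask -/
def s0m155 : ℕ := 0x0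
/-- mask -/
def s0m156 : ℕ := 0x0
/-- mask -/
def s0m157 : ℕ := 0x0
/-- mask -/
def s0m158 : ℕ := 0x0
/-- mask -/
def s0m159 : ℕ := 0x0
/-- mask -/
def s0m160 : ℕ := 0x0
/-- mask -/
def s0m161 : ℕ := 0x0
/-- mask -/
def s0m162 : ℕ := 0x0
/-- mask -/
def s0m163 : ℕ := 0x100200000000000000000000000000088004c00000
/-- mask -/
def s0m164 : ℕ := 0x80200000000000000000000000000088004c00000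
/-- mask -/
def s0m165 : ℕ := 0x0
/-- mask -/
def s0m166 : ℕ := 0x0
/-- mask -/
def s0m167 : ℕ := 0x0
/-- mask -/
def s0m168 : ℕ := 0x0
/-- mask -/
def s0m169 : ℕ := 0x0
/-- mask -/
def s0m170 : ℕ := 0x0
/-- mask -/
def s0m171 : ℕ := 0x0
/-- mask -/
def s0m172 : ℕ := 0x0
/-- mask -/
def s0m173 : ℕ := 0x0
/-- mask -/
def s0m174 : ℕ := 0x0
/-- mask -/
def s0m175 : ℕ := 0x0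
/-- mask -/
def s0m176 : ℕ := 0x0
/-- mask -/
def s0m177 : ℕ := 0x0
/-- mask -/
def s0m178 : ℕ := 0x0
/-- mask -/
def s0m179 : ℕ := 0x0
/-- mask -/
def s0m180 : ℕ := 0x0
/-- mask -/
def s0m181 : ℕ := 0x0
/-- mask -/
def s0m182 : ℕ := 0x0
/-- mask -/
def s0m183 : ℕ := 0x0
/-- mask -/
def s0m184 : ℕ := 0x0
/-- mask -/
def s0m185 : ℕ := 0x0
/-- mask -/
def s0m186 : ℕ := 0x0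
/-- mask -/
def s0m187 : ℕ := 0x0
/-- mask -/
def s0m188 : ℕ := 0x0
/-- mask -/
def s0m189 : ℕ := 0x0
/-- mask -/
def s0m190 : ℕ := 0x0
/-- mask -/
def s0m191 : ℕ := 0x0
/-- mask -/
def s0m192 : ℕ := 0x0
/-- mask -/
def s0m193 : ℕ := 0x0
/-- mask -/
def s0m194 : ℕ := 0x0
/-- mask -/
def s0m195 : ℕ := 0x0
/-- mask -/
def s0m196 : ℕ := 0x0
/-- mask -/
def s0m197 : ℕ := 0x0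
/-- mask -/
def s0m198 : ℕ := 0x0
/-- mask -/
def s0m199 : ℕ := 0x0
/-- mask -/
def s0m200 : ℕ := 0x0
/-- mask -/
def s0m201 : ℕ := 0x0
/-- mask -/
def s0m202 : ℕ := 0x0
/-- mask -/
def s0m203 : ℕ := 0x0
/-- mask -/
def s0m204 : ℕ := 0x0
/-- mask -/
def s0m205 : ℕ := 0x0
/-- mask -/
def s0m206 : ℕ := 0x0
/-- mask -/
def s0m207 : ℕ := 0x0
/-- mask -/
def s0m208 : ℕ := 0x0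
/-- mask -/
def s0m209 : ℕ := 0x0
/-- mask -/
def s0m210 : ℕ := 0x0
/-- mask -/
def s0m211 : ℕ := 0x0
/-- mask -/
def s0m212 : ℕ := 0x0
/-- mask -/
def s0m213 : ℕ := 0x0
/-- mask -/
def s0m214 : ℕ := 0x0
/-- mask -/
def s0m215 : ℕ := 0x0
/-- mask -/
def s0m216 : ℕ := 0x0
/-- mask -/
def s0m217 : ℕ := 0x0
/-- mask -/
def s0m218 : ℕ := 0x0
/-- mask -/
def s0m219 : ℕ := 0x0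
/-- mask -/
def s0m220 : ℕ := 0x0
/-- mask -/
def s0m221 : ℕ := 0x0
/-- mask -/
def s0m222 : ℕ := 0x0
/-- mask -/
def s0m223 : ℕ := 0x0
/-- mask -/
def s0m224 : ℕ := 0x0
/-- mask -/
def s0m225 : ℕ := 0x0
/-- mask -/
def s0m226 : ℕ := 0x0
/-- mask -/
def s0m227 : ℕ := 0x0
/-- mask -/
def s0m228 : ℕ := 0x0
/-- mask -/
def s0m229 : ℕ := 0x0
/-- mask -/
def s0m230 : ℕ := 0x0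
/-- mask -/
def s0m231 : ℕ := 0x0
/-- mask -/
def s0m232 : ℕ := 0x0
/-- mask -/
def s0m233 : ℕ := 0x0
/-- mask -/
def s0m234 : ℕ := 0x0
/-- mask -/
def s0m235 : ℕ := 0x0
/-- mask -/
def s0m236 : ℕ := 0x0
/-- mask -/
def s0m237 : ℕ := 0x0
/-- mask -/
def s0m238 : ℕ := 0x0
/-- mask -/
def s0m239 : ℕ := 0x0
/-- mask -/
def s0m240 : ℕ := 0x0
/-- mask -/
def s0m241 : ℕ := 0x0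
/-- mask -/
def s0m242 : ℕ := 0x0
/-- mask -/
def s0m243 : ℕ := 0x0
/-- mask -/
def s0m244 : ℕ := 0x0
/-- mask -/
def s0m245 : ℕ := 0x0
/-- mask -/
def s0m246 : ℕ := 0x0
/-- mask -/
def s0m247 : ℕ := 0x0
/-- mask -/
def s0m248 : ℕ := 0x0
/-- mask -/
def s0m249 : ℕ := 0x0
/-- mask -/
def s0m250 : ℕ := 0x0
/-- mask -/
def s0m251 : ℕ := 0x0
/-- mask -/
def s0m252 : ℕ := 0x0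
/-- mask -/
def s0m253 : ℕ := 0x0
/-- mask -/
def s0m254 : ℕ := 0x0
/-- mask -/
def s0m255 : ℕ := 0x0
/-- mask -/
def s0m256 : ℕ := 0x0
/-- mask -/
def s0m257 : ℕ := 0x0
/-- mask -/
def s0m258 : ℕ := 0x0
/-- mask -/
def s0m259 : ℕ := 0x0
/-- mask -/
def s0m260 : ℕ := 0x0
/-- mask -/
def s0m261 : ℕ := 0x0
/-- mask -/
def s0m262 : ℕ := 0x0
/-- mask -/
def s0m263 : ℕ := 0x0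
/-- mask -/
def s0m264 : ℕ := 0x0
/-- mask -/
def s0m265 : ℕ := 0x0
/-- mask -/
def s0m266 : ℕ := 0x0
/-- mask -/
def s0m267 : ℕ := 0x0
/-- mask -/
def s0m268 : ℕ := 0x0
/-- mask -/
def s0m269 : ℕ := 0x0
/-- mask -/
def s0m270 : ℕ := 0x0
/-- mask -/
def s0m271 : ℕ := 0x0
/-- mask -/
def s0m272 : ℕ := 0x0
/-- mask -/
def s0m273 : ℕ := 0x0
/-- mask -/
def s0m274 : ℕ := 0x0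
/-- mask -/
def s0m275 : ℕ := 0x0
/-- mask -/
def s0m276 : ℕ := 0x0
/-- mask -/
def s0m277 : ℕ := 0x0
/-- mask -/
def s0m278 : ℕ := 0x0
/-- mask -/
def s0m279 : ℕ := 0x0
/-- mask -/
def s0m280 : ℕ := 0x0
/-- mask -/
def s0m281 : ℕ := 0x0
/-- mask -/
def s0m282 : ℕ := 0x0
/-- mask -/
def s0m283 : ℕ := 0x0
/-- mask -/
def s0m284 : ℕ := 0x0
/-- mask -/
def s0m285 : ℕ := 0x0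
/-- mask -/
def s0m286 : ℕ := 0x0
/-- mask -/
def s0m287 : ℕ := 0x0
/-- mask -/
def s0m288 : ℕ := 0x0
/-- mask -/
def s0m289 : ℕ := 0x0
/-- mask -/
def s0m290 : ℕ := 0x0
/-- mask -/
def s0m291 : ℕ := 0x0
/-- mask -/
def s0m292 : ℕ := 0x0
/-- mask -/
def s0m293 : ℕ := 0x0
/-- mask -/
def s0m294 : ℕ := 0x0
/-- mask -/
def s0m295 : ℕ := 0x0
/-- mask -/
def s0m296 : ℕ := 0x0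
/-- mask -/
def s0m297 : ℕ := 0x0
/-- mask -/
def s0m298 : ℕ := 0x0
/-- mask -/
def s0m299 : ℕ := 0x0
/-- mask -/
def s0m300 : ℕ := 0x0
/-- mask -/
def s0m301 : ℕ := 0x0
/-- mask -/
def s0m302 : ℕ := 0x0
/-- mask -/
def s0m303 : ℕ := 0x0
/-- mask -/
def s0m304 : ℕ := 0x0
/-- mask -/
def s0m305 : ℕ := 0x0
/-- mask -/
def s0m306 : ℕ := 0x0
/-- mask -/
def s0m307 : ℕ := 0x0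
/-- mask -/
def s0m308 : ℕ := 0x0
/-- mask -/
def s0m309 : ℕ := 0x0
/-- mask -/
def s0m310 : ℕ := 0x0
/-- mask -/
def s0m311 : ℕ := 0x0
/-- mask -/
def s0m312 : ℕ := 0x0
/-- mask -/
def s0m313 : ℕ := 0x0
/-- mask -/
def s0m314 : ℕ := 0x0
/-- mask -/
def s0m315 : ℕ := 0x0

/-- the tree of the masks -/
def t0 : Tr := (Tr.nd (Tr.nd (Tr.nd (Tr.nd (Tr.nd (Tr.nd (Tr.nd (Tr.nd (Tr.nd (Tr.lf s0m0) (Tr.lf s0m256)) (Tr.nd (Tr.lf s0m128) (Tr.lf 0))) (Tr.nd (Tr.nd (Tr.lf s0m64) (Tr.lf 0)) (Tr.nd (Tr.lf s0m192) (Tr.lf 0)))) (Tr.nd (Tr.nd (Tr.nd (Tr.lf s0m32) (Tr.lf s0m288)) (Tr.nd (Tr.lf s0m160) (Tr.lf 0))) (Tr.nd (Tr.nd (Tr.lf s0m96) (Tr.lf 0)) (Tr.nd (Tr.lf s0m224) (Tr.lf 0))))) (Tr.nd (Tr.nd (Tr.nd (Tr.nd (Tr.lf s0m16) (Tr.lf s0m272)) (Tr.nd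 (Tr.lf s0m144) (Tr.lf 0))) (Tr.nd (Tr.nd (Tr.lf s0m80) (Tr.lf 0)) (Tr.nd (Tr.lf s0m208) (Tr.lf 0)))) (Tr.nd (Tr.nd (Tr.nd (Tr.lf s0m48) (Tr.lf s0m304)) (Tr.nd (Tr.lf s0m176) (Tr.lf 0))) (Tr.nd (Tr.nd (Tr.lf s0m112) (Tr.lf 0)) (Tr.nd (Tr.lf s0m240) (Tr.lf 0)))))) (Tr.nd (Tr.nd (Tr.nd (Tr.nd (Tr.nd (Tr.lf s0m8) (Tr.lf s0m264)) (Tr.nd (Tr.lf s0m136) (Tr.lf 0))) (Tr.nd (Tr.nd (Tr.lf s0m72) (Tr.lf 0)) (Tr.nd (Tr.lf s0m200) (Tr.lf 0)))) (Tr.nd (Tr.nd (Tr.nd (Tr.lf s0m40) (Tr.lf s0m296)) (Tr.nd (Tr.lf s0m168) (Tr.lf 0))) (Tr.nd (Tr.nd (Tr.lf s0m104) (Tr.lf 0)) (Tr.nd (Tr.lf s0m232) (Tr.lf 0))))) (Tr.nd (Tr.nd (Tr.nd (Tr.nd (Tr.lf s0m24) (Tr.lf s0m280)) (Tr.nd (Tr.lf s0m152) (Tr.lf 0))) (Tr.nd (Tr.nd (Tr.lf s0m88) (Tr.lf 0)) (Tr.nd (Tr.lf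 s0m216) (Tr.lf 0)))) (Tr.nd (Tr.nd (Tr.nd (Tr.lf s0m56) (Tr.lf s0m312)) (Tr.nd (Tr.lf s0m184) (Tr.lf 0))) (Tr.nd (Tr.nd (Tr.lf s0m120) (Tr.lf 0)) (Tr.nd (Tr.lf s0m248) (Tr.lf 0))))))) (Tr.nd (Tr.nd (Tr.nd (Tr.nd (Tr.nd (Tr.nd (Tr.lf s0m4) (Tr.lf s0m260)) (Tr.nd (Tr.lf s0m132) (Tr.lf 0))) (Tr.nd (Tr.nd (Tr.lf s0m68) (Tr.lf 0)) (Tr.nd (Tr.lf s0m196) (Tr.lf 0)))) (Tr.nd (Tr.nd (Tr.nd (Tr.lf s0m36) (Tr.lf s0m292)) (Tr.nd (Tr.lf s0m164) (Tr.lf 0))) (Tr.nd (Tr.nd (Tr.lf s0m100) (Tr.lf 0)) (Tr.nd (Tr.lf s0m228) (Tr.lf 0))))) (Tr.nd (Tr.nd (Tr.nd (Tr.nd (Tr.lf s0m20) (Tr.lf s0m276)) (Tr.nd (Tr.lf s0m148) (Tr.lf 0))) (Tr.nd (Tr.nd (Tr.lf s0m84) (Tr.lf 0)) (Tr.nd (Tr.lf s0m212) (Tr.lf 0)))) (Tr.nd (Tr.nd (Tr.nd (Tr.lf s0m52) (Tr.lf s0m308))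 (Tr.nd (Tr.lf s0m180) (Tr.lf 0))) (Tr.nd (Tr.nd (Tr.lf s0m116) (Tr.lf 0)) (Tr.nd (Tr.lf s0m244) (Tr.lf 0)))))) (Tr.nd (Tr.nd (Tr.nd (Tr.nd (Tr.nd (Tr.lf s0m12) (Tr.lf s0m268)) (Tr.nd (Tr.lf s0m140) (Tr.lf 0))) (Tr.nd (Tr.nd (Tr.lf s0m76) (Tr.lf 0)) (Tr.nd (Tr.lf s0m204) (Tr.lf 0)))) (Tr.nd (Tr.nd (Tr.nd (Tr.lf s0m44) (Tr.lf s0m300)) (Tr.nd (Tr.lf s0m172) (Tr.lf 0))) (Tr.nd (Tr.nd (Tr.lf s0m108) (Tr.lf 0)) (Tr.nd (Tr.lf s0m236) (Tr.lf 0))))) (Tr.nd (Tr.nd (Tr.nd (Tr.nd (Tr.lf s0m28) (Tr.lf s0m284)) (Tr.nd (Tr.lf s0m156) (Tr.lf 0))) (Tr.nd (Tr.nd (Tr.lf s0m92) (Tr.lf 0)) (Tr.nd (Tr.lf s0m220) (Tr.lf 0)))) (Tr.nd (Tr.nd (Tr.nd (Tr.lf s0m60) (Tr.lf 0)) (Tr.nd (Tr.lf s0m188) (Tr.lf 0))) (Tr.nd (Tr.nd (Tr.lf s0m124) (Tr.lf 0)) (Tr.nd (Tr.lf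 s0m252) (Tr.lf 0)))))))) (Tr.nd (Tr.nd (Tr.nd (Tr.nd (Tr.nd (Tr.nd (Tr.nd (Tr.lf s0m2) (Tr.lf s0m258)) (Tr.nd (Tr.lf s0m130) (Tr.lf 0))) (Tr.nd (Tr.nd (Tr.lf s0m66) (Tr.lf 0)) (Tr.nd (Tr.lf s0m194) (Tr.lf 0)))) (Tr.nd (Tr.nd (Tr.nd (Tr.lf s0m34) (Tr.lf s0m290)) (Tr.nd (Tr.lf s0m162) (Tr.lf 0))) (Tr.nd (Tr.nd (Tr.lf s0m98) (Tr.lf 0)) (Tr.nd (Tr.lf s0m226) (Tr.lf 0))))) (Tr.nd (Tr.nd (Tr.nd (Tr.nd (Tr.lf s0m18) (Tr.lf s0m274)) (Tr.nd (Tr.lf s0m146) (Tr.lf 0))) (Tr.nd (Tr.nd (Tr.lf s0m82) (Tr.lf 0)) (Tr.nd (Tr.lf s0m210) (Tr.lf 0)))) (Tr.nd (Tr.nd (Tr.nd (Tr.lf s0m50) (Tr.lf s0m306)) (Tr.nd (Tr.lf s0m178) (Tr.lf 0))) (Tr.nd (Tr.nd (Tr.lf s0m114) (Tr.lf 0)) (Tr.nd (Tr.lf s0m242) (Tr.lf 0)))))) (Tr.nd (Tr.nd (Tr.nd (Tr.nd (Tr.nd (Tr.lf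 s0m10) (Tr.lf s0m266)) (Tr.nd (Tr.lf s0m138) (Tr.lf 0))) (Tr.nd (Tr.nd (Tr.lf s0m74) (Tr.lf 0)) (Tr.nd (Tr.lf s0m202) (Tr.lf 0)))) (Tr.nd (Tr.nd (Tr.nd (Tr.lf s0m42) (Tr.lf s0m298)) (Tr.nd (Tr.lf s0m170) (Tr.lf 0))) (Tr.nd (Tr.nd (Tr.lf s0m106) (Tr.lf 0)) (Tr.nd (Tr.lf s0m234) (Tr.lf 0))))) (Tr.nd (Tr.nd (Tr.nd (Tr.nd (Tr.lf s0m26) (Tr.lf s0m282)) (Tr.nd (Tr.lf s0m154) (Tr.lf 0))) (Tr.nd (Tr.nd (Tr.lf s0m90) (Tr.lf 0)) (Tr.nd (Tr.lf s0m218) (Tr.lf 0)))) (Tr.nd (Tr.nd (Tr.nd (Tr.lf s0m58) (Tr.lf s0m314)) (Tr.nd (Tr.lf s0m186) (Tr.lf 0))) (Tr.nd (Tr.nd (Tr.lf s0m122) (Tr.lf 0)) (Tr.nd (Tr.lf s0m250) (Tr.lf 0))))))) (Tr.nd (Tr.nd (Tr.nd (Tr.nd (Tr.nd (Tr.nd (Tr.lf s0m6) (Tr.lf s0m262)) (Tr.nd (Tr.lf s0m134) (Tr.lf 0))) (Tr.nd (Tr.nd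 (Tr.lf s0m70) (Tr.lf 0)) (Tr.nd (Tr.lf s0m198) (Tr.lf 0)))) (Tr.nd (Tr.nd (Tr.nd (Tr.lf s0m38) (Tr.lf s0m294)) (Tr.nd (Tr.lf s0m166) (Tr.lf 0))) (Tr.nd (Tr.nd (Tr.lf s0m102) (Tr.lf 0)) (Tr.nd (Tr.lf s0m230) (Tr.lf 0))))) (Tr.nd (Tr.nd (Tr.nd (Tr.nd (Tr.lf s0m22) (Tr.lf s0m278)) (Tr.nd (Tr.lf s0m150) (Tr.lf 0))) (Tr.nd (Tr.nd (Tr.lf s0m86) (Tr.lf 0)) (Tr.nd (Tr.lf s0m214) (Tr.lf 0)))) (Tr.nd (Tr.nd (Tr.nd (Tr.lf s0m54) (Tr.lf s0m310)) (Tr.nd (Tr.lf s0m182) (Tr.lf 0))) (Tr.nd (Tr.nd (Tr.lf s0m118) (Tr.lf 0)) (Tr.nd (Tr.lf s0m246) (Tr.lf 0)))))) (Tr.nd (Tr.nd (Tr.nd (Tr.nd (Tr.nd (Tr.lf s0m14) (Tr.lf s0m270)) (Tr.nd (Tr.lf s0m142) (Tr.lf 0))) (Tr.nd (Tr.nd (Tr.lf s0m78) (Tr.lf 0)) (Tr.nd (Tr.lf s0m206) (Tr.lf 0)))) (Tr.nd (Tr.nd (Tr.nd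 (Tr.lf s0m46) (Tr.lf s0m302)) (Tr.nd (Tr.lf s0m174) (Tr.lf 0))) (Tr.nd (Tr.nd (Tr.lf s0m110) (Tr.lf 0)) (Tr.nd (Tr.lf s0m238) (Tr.lf 0))))) (Tr.nd (Tr.nd (Tr.nd (Tr.nd (Tr.lf s0m30) (Tr.lf s0m286)) (Tr.nd (Tr.lf s0m158) (Tr.lf 0))) (Tr.nd (Tr.nd (Tr.lf s0m94) (Tr.lf 0)) (Tr.nd (Tr.lf s0m222) (Tr.lf 0)))) (Tr.nd (Tr.nd (Tr.nd (Tr.lf s0m62) (Tr.lf 0)) (Tr.nd (Tr.lf s0m190) (Tr.lf 0))) (Tr.nd (Tr.nd (Tr.lf s0m126) (Tr.lf 0)) (Tr.nd (Tr.lf s0m254) (Tr.lf 0))))))))) (Tr.nd (Tr.nd (Tr.nd (Tr.nd (Tr.nd (Tr.nd (Tr.nd (Tr.nd (Tr.lf s0m1) (Tr.lf s0m257)) (Tr.nd (Tr.lf s0m129) (Tr.lf 0))) (Tr.nd (Tr.nd (Tr.lf s0m65) (Tr.lf 0)) (Tr.nd (Tr.lf s0m193) (Tr.lf 0)))) (Tr.nd (Tr.nd (Tr.nd (Tr.lf s0m33) (Tr.lf s0m289)) (Tr.nd (Tr.lf s0m161) (Tr.lf 0)))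 (Tr.nd (Tr.nd (Tr.lf s0m97) (Tr.lf 0)) (Tr.nd (Tr.lf s0m225) (Tr.lf 0))))) (Tr.nd (Tr.nd (Tr.nd (Tr.nd (Tr.lf s0m17) (Tr.lf s0m273)) (Tr.nd (Tr.lf s0m145) (Tr.lf 0))) (Tr.nd (Tr.nd (Tr.lf s0m81) (Tr.lf 0)) (Tr.nd (Tr.lf s0m209) (Tr.lf 0)))) (Tr.nd (Tr.nd (Tr.nd (Tr.lf s0m49) (Tr.lf s0m305)) (Tr.nd (Tr.lf s0m177) (Tr.lf 0))) (Tr.nd (Tr.nd (Tr.lf s0m113) (Tr.lf 0)) (Tr.nd (Tr.lf s0m241) (Tr.lf 0)))))) (Tr.nd (Tr.nd (Tr.nd (Tr.nd (Tr.nd (Tr.lf s0m9) (Tr.lf s0m265)) (Tr.nd (Tr.lf s0m137) (Tr.lf 0))) (Tr.nd (Tr.nd (Tr.lf s0m73) (Tr.lf 0)) (Tr.nd (Tr.lf s0m201) (Tr.lf 0)))) (Tr.nd (Tr.nd (Tr.nd (Tr.lf s0m41) (Tr.lf s0m297)) (Tr.nd (Tr.lf s0m169) (Tr.lf 0))) (Tr.nd (Tr.nd (Tr.lf s0m105) (Tr.lf 0)) (Tr.nd (Tr.lf s0m233) (Tr.lf 0))))) (Tr.nd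 (Tr.nd (Tr.nd (Tr.nd (Tr.lf s0m25) (Tr.lf s0m281)) (Tr.nd (Tr.lf s0m153) (Tr.lf 0))) (Tr.nd (Tr.nd (Tr.lf s0m89) (Tr.lf 0)) (Tr.nd (Tr.lf s0m217) (Tr.lf 0)))) (Tr.nd (Tr.nd (Tr.nd (Tr.lf s0m57) (Tr.lf s0m313)) (Tr.nd (Tr.lf s0m185) (Tr.lf 0))) (Tr.nd (Tr.nd (Tr.lf s0m121) (Tr.lf 0)) (Tr.nd (Tr.lf s0m249) (Tr.lf 0))))))) (Tr.nd (Tr.nd (Tr.nd (Tr.nd (Tr.nd (Tr.nd (Tr.lf s0m5) (Tr.lf s0m261)) (Tr.nd (Tr.lf s0m133) (Tr.lf 0))) (Tr.nd (Tr.nd (Tr.lf s0m69) (Tr.lf 0)) (Tr.nd (Tr.lf s0m197) (Tr.lf 0)))) (Tr.nd (Tr.nd (Tr.nd (Tr.lf s0m37) (Tr.lf s0m293)) (Tr.nd (Tr.lf s0m165) (Tr.lf 0))) (Tr.nd (Tr.nd (Tr.lf s0m101) (Tr.lf 0)) (Tr.nd (Tr.lf s0m229) (Tr.lf 0))))) (Tr.nd (Tr.nd (Tr.nd (Tr.nd (Tr.lf s0m21) (Tr.lf s0m277)) (Tr.nd (Tr.lf s0m149)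 (Tr.lf 0))) (Tr.nd (Tr.nd (Tr.lf s0m85) (Tr.lf 0)) (Tr.nd (Tr.lf s0m213) (Tr.lf 0)))) (Tr.nd (Tr.nd (Tr.nd (Tr.lf s0m53) (Tr.lf s0m309)) (Tr.nd (Tr.lf s0m181) (Tr.lf 0))) (Tr.nd (Tr.nd (Tr.lf s0m117) (Tr.lf 0)) (Tr.nd (Tr.lf s0m245) (Tr.lf 0)))))) (Tr.nd (Tr.nd (Tr.nd (Tr.nd (Tr.nd (Tr.lf s0m13) (Tr.lf s0m269)) (Tr.nd (Tr.lf s0m141) (Tr.lf 0))) (Tr.nd (Tr.nd (Tr.lf s0m77) (Tr.lf 0)) (Tr.nd (Tr.lf s0m205) (Tr.lf 0)))) (Tr.nd (Tr.nd (Tr.nd (Tr.lf s0m45) (Tr.lf s0m301)) (Tr.nd (Tr.lf s0m173) (Tr.lf 0))) (Tr.nd (Tr.nd (Tr.lf s0m109) (Tr.lf 0)) (Tr.nd (Tr.lf s0m237) (Tr.lf 0))))) (Tr.nd (Tr.nd (Tr.nd (Tr.nd (Tr.lf s0m29) (Tr.lf s0m285)) (Tr.nd (Tr.lf s0m157) (Tr.lf 0))) (Tr.nd (Tr.nd (Tr.lf s0m93) (Tr.lf 0)) (Tr.nd (Tr.lf s0m221) (Tr.lf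 0)))) (Tr.nd (Tr.nd (Tr.nd (Tr.lf s0m61) (Tr.lf 0)) (Tr.nd (Tr.lf s0m189) (Tr.lf 0))) (Tr.nd (Tr.nd (Tr.lf s0m125) (Tr.lf 0)) (Tr.nd (Tr.lf s0m253) (Tr.lf 0)))))))) (Tr.nd (Tr.nd (Tr.nd (Tr.nd (Tr.nd (Tr.nd (Tr.nd (Tr.lf s0m3) (Tr.lf s0m259)) (Tr.nd (Tr.lf s0m131) (Tr.lf 0))) (Tr.nd (Tr.nd (Tr.lf s0m67) (Tr.lf 0)) (Tr.nd (Tr.lf s0m195) (Tr.lf 0)))) (Tr.nd (Tr.nd (Tr.nd (Tr.lf s0m35) (Tr.lf s0m291)) (Tr.nd (Tr.lf s0m163) (Tr.lf 0))) (Tr.nd (Tr.nd (Tr.lf s0m99) (Tr.lf 0)) (Tr.nd (Tr.lf s0m227) (Tr.lf 0))))) (Tr.nd (Tr.nd (Tr.nd (Tr.nd (Tr.lf s0m19) (Tr.lf s0m275)) (Tr.nd (Tr.lf s0m147) (Tr.lf 0))) (Tr.nd (Tr.nd (Tr.lf s0m83) (Tr.lf 0)) (Tr.nd (Tr.lf s0m211) (Tr.lf 0)))) (Tr.nd (Tr.nd (Tr.nd (Tr.lf s0m51) (Tr.lf s0m307)) (Tr.nd (Tr.lf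 s0m179) (Tr.lf 0))) (Tr.nd (Tr.nd (Tr.lf s0m115) (Tr.lf 0)) (Tr.nd (Tr.lf s0m243) (Tr.lf 0)))))) (Tr.nd (Tr.nd (Tr.nd (Tr.nd (Tr.nd (Tr.lf s0m11) (Tr.lf s0m267)) (Tr.nd (Tr.lf s0m139) (Tr.lf 0))) (Tr.nd (Tr.nd (Tr.lf s0m75) (Tr.lf 0)) (Tr.nd (Tr.lf s0m203) (Tr.lf 0)))) (Tr.nd (Tr.nd (Tr.nd (Tr.lf s0m43) (Tr.lf s0m299)) (Tr.nd (Tr.lf s0m171) (Tr.lf 0))) (Tr.nd (Tr.nd (Tr.lf s0m107) (Tr.lf 0)) (Tr.nd (Tr.lf s0m235) (Tr.lf 0))))) (Tr.nd (Tr.nd (Tr.nd (Tr.nd (Tr.lf s0m27) (Tr.lf s0m283)) (Tr.nd (Tr.lf s0m155) (Tr.lf 0))) (Tr.nd (Tr.nd (Tr.lf s0m91) (Tr.lf 0)) (Tr.nd (Tr.lf s0m219) (Tr.lf 0)))) (Tr.nd (Tr.nd (Tr.nd (Tr.lf s0m59) (Tr.lf s0m315)) (Tr.nd (Tr.lf s0m187) (Tr.lf 0))) (Tr.nd (Tr.nd (Tr.lf s0m123) (Tr.lf 0)) (Tr.nd (Tr.lf s0m251)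 (Tr.lf 0))))))) (Tr.nd (Tr.nd (Tr.nd (Tr.nd (Tr.nd (Tr.nd (Tr.lf s0m7) (Tr.lf s0m263)) (Tr.nd (Tr.lf s0m135) (Tr.lf 0))) (Tr.nd (Tr.nd (Tr.lf s0m71) (Tr.lf 0)) (Tr.nd (Tr.lf s0m199) (Tr.lf 0)))) (Tr.nd (Tr.nd (Tr.nd (Tr.lf s0m39) (Tr.lf s0m295)) (Tr.nd (Tr.lf s0m167) (Tr.lf 0))) (Tr.nd (Tr.nd (Tr.lf s0m103) (Tr.lf 0)) (Tr.nd (Tr.lf s0m231) (Tr.lf 0))))) (Tr.nd (Tr.nd (Tr.nd (Tr.nd (Tr.lf s0m23) (Tr.lf s0m279)) (Tr.nd (Tr.lf s0m151) (Tr.lf 0))) (Tr.nd (Tr.nd (Tr.lf s0m87) (Tr.lf 0)) (Tr.nd (Tr.lf s0m215) (Tr.lf 0)))) (Tr.nd (Tr.nd (Tr.nd (Tr.lf s0m55) (Tr.lf s0m311)) (Tr.nd (Tr.lf s0m183) (Tr.lf 0))) (Tr.nd (Tr.nd (Tr.lf s0m119) (Tr.lf 0)) (Tr.nd (Tr.lf s0m247) (Tr.lf 0)))))) (Tr.nd (Tr.nd (Tr.nd (Tr.nd (Tr.nd (Tr.lf s0m15) (Tr.lf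 s0m271)) (Tr.nd (Tr.lf s0m143) (Tr.lf 0))) (Tr.nd (Tr.nd (Tr.lf s0m79) (Tr.lf 0)) (Tr.nd (Tr.lf s0m207) (Tr.lf 0)))) (Tr.nd (Tr.nd (Tr.nd (Tr.lf s0m47) (Tr.lf s0m303)) (Tr.nd (Tr.lf s0m175) (Tr.lf 0))) (Tr.nd (Tr.nd (Tr.lf s0m111) (Tr.lf 0)) (Tr.nd (Tr.lf s0m239) (Tr.lf 0))))) (Tr.nd (Tr.nd (Tr.nd (Tr.nd (Tr.lf s0m31) (Tr.lf s0m287)) (Tr.nd (Tr.lf s0m159) (Tr.lf 0))) (Tr.nd (Tr.nd (Tr.lf s0m95) (Tr.lf 0)) (Tr.nd (Tr.lf s0m223) (Tr.lf 0)))) (Tr.nd (Tr.nd (Tr.nd (Tr.lf s0m63) (Tr.lf 0)) (Tr.nd (Tr.lf s0m191) (Tr.lf 0))) (Tr.nd (Tr.nd (Tr.lf s0m127) (Tr.lf 0)) (Tr.nd (Tr.lf s0m255) (Tr.lf 0))))))))))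

/-- the places -/
def u0 : ℕ := 0x180200000000000000000000000000088004c00000

end Pool.Agent.U820.LT.F54
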